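import Pool.Agent.helper5.DH.Spec

/-! # Project dh: module FAE: first approach times exist -/

set_option autoImplicit false

open Complex Metric Set Filter Topology MeasureTheory Pool.Agent.helper98.ILF Pool.Agent.helper16.Multibrot
open HY (UD T S hd UN RM VV SG Orb fz)

noncomputable section

namespace DH

theorem FAE (hCOP : COP_stmt) : FAE_stmt := by
  intro n c Φ b M k p hM hT hp hrec
  obtain ⟨hVo, h0V, hc0, -, -, hdiff, -⟩ := hCOP (VV n c k) 0 (Φ k) (hT.rm k)
  have hcont : ContinuousAt (co (Φ k)) 0 := (hdiff.differentiableAt (hVo.mem_nhds h0V)).continuousAt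
  obtain ⟨ε, hε, hball⟩ := Metric.continuousAt_iff.1 hcont (1 / 2) (by norm_num)
  have hex : ∃ i, (1 / 2 : ℝ) ^ M < 1 - ‖yv Φ n c k p i‖ := by
    obtain ⟨i, hi⟩ := hrec ε hε
    refine ⟨i, ?_⟩
    have h1 := hball (x := (fz n c)^[i] p) (by rw [dist_zero_right]; exact hi)
    rw [hc0, dist_zero_right] at h1
    have h2 : ‖yv Φ n c k p i‖ < 1 / 2 := h1
    have h3 : (1 / 2 : ℝ) ^ M ≤ (1 / 2) ^ 1 := pow_le_pow_of_le_one (by norm_num) (by norm_num) hM
    rw [pow_one] at h3
    linarith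
  classical
  refine ⟨Nat.find hex, hT, hp, ?_, Nat.find_spec hex⟩
  intro i hi
  exact not_lt.1 (Nat.find_min hex hi)

end DH
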